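import Pool.Agent.Helper81.LL.Names

/-!
# The canonical numbering is defined before the end of the first loop
-/

set_option autoImplicit false

namespace Pool.Agent.Helper81.LL

open Pool.Agent.Helper25.EV Encodable

theorem sch_le (j : ℕ) : sch j ≤ j := Nat.unpair_left_le j

theorem sch_inf (c m : ℕ) : ∃ j, m ≤ j ∧ sch j = c :=
  ⟨Nat.pair c m, Nat.right_le_pair c m, by simp [sch, Nat.unpair_pair]⟩

section Lim

variable (P : LPr) (β : Ordinal.{0})

theorem le_iff (a b : Ordinal.{0}) : (HD P β).le a b ↔ a ≤ b := le_iff_lt_or_eq.symm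

theorem silF_iff (c : ℕ) (a : Ordinal.{0}) :
    (HD P β).silF (HD P β).frD c a ↔ Silent (FD P) c a β := by
  constructor
  · intro h α h1 h2
    exact h α h2 ((le_iff P β _ _).mpr h1)
  · intro h b hb hab
    exact h b ((le_iff P β _ _).mp hab) hb

theorem sil_iff (c : ℕ) : (HD P β).sil (HD P β).frD c ↔ c ∈ Zc (FD P) β := by
  constructor
  · rintro ⟨a, ha, h⟩
    exact ⟨a, ha, (silF_iff P β c a).mp h⟩
  · rintro ⟨a, ha, h⟩
    exact ⟨a, ha, (silF_iff P β c a).mpr h⟩

open Classical in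
/-- the true bit -/
noncomputable def bt (c : ℕ) : Bool := decide (c ∈ Zc (FD P) β)

/-- the true guess of length `n` -/
noncomputable def tl (n : ℕ) : List Bool := (List.range n).map (bt P β)

theorem tl_length (n : ℕ) : (tl P β n).length = n := by simp [tl]

theorem getD_eq (τ : List Bool) (h : (HD P β).tg (HD P β).frD τ) (c : ℕ) (hc : c < τ.length) :
    τ.getD c false = bt P β c := by
  have h1 := h c hc
  rw [sil_iff] at h1
  unfold bt
  by_cases h2 : c ∈ Zc (FD P) β
  · rw [h1.mpr h2]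
    simp [h2]
  · have h3 : τ.getD c false ≠ true := fun h4 => h2 (h1.mp h4)
    simp only [Bool.not_eq_true] at h3
    rw [h3]
    simp [h2]

theorem tg_tl (n : ℕ) : (HD P β).tg (HD P β).frD (tl P β n) := by
  intro c hc
  rw [sil_iff]
  rw [tl_length] at hc
  unfold tl
  rw [List.getD_eq_getElem?_getD, List.getElem?_map, List.getElem?_range hc]
  simp [bt]

theorem tg_unique (τ τ' : List Bool) (h : (HD P β).tg (HD P β).frD τ)
    (h' : (HD P β).tg (HD P β).frD τ') (e : τ.length = τ'.length) : τ = τ' := by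
  apply List.ext_getElem e
  intro c h1 h2
  have h3 := getD_eq P β τ h c h1
  have h4 := getD_eq P β τ' h' c h2
  rw [List.getD_eq_getElem _ _ h1] at h3
  rw [List.getD_eq_getElem _ _ h2] at h4
  rw [h3, h4]

/-- one step of the true sequence of cuts -/
def st (c : ℕ) (w x : Ordinal.{0}) : Prop := (HD P β).cutStep (HD P β).frD (bt P β c) c w x

theorem st_unique (c : ℕ) (w x x' : Ordinal.{0}) (h : st P β c w x) (h' : st P β c w x') :
    x = x' := by
  unfold st at h h'
  obtain ⟨hx, ⟨e, h1, h2, h3⟩ | ⟨e, f, h1, h2, h3, h4, h5⟩⟩ := h <;>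
  obtain ⟨hx', ⟨e', h1', h2', h3'⟩ | ⟨e', f', h1', h2', h3', h4', h5'⟩⟩ := h'
  · exact le_antisymm ((le_iff P β _ _).mp (h3 _ hx' h1' h2'))
      ((le_iff P β _ _).mp (h3' _ hx h1 h2))
  · rw [e] at e'
    exact Bool.noConfusion e'
  · rw [e] at e'
    exact Bool.noConfusion e'
  · have e1 : f = f' := le_antisymm ((le_iff P β _ _).mp (h4 _ h1' h2' h3'))
      ((le_iff P β _ _).mp (h4' _ h1 h2 h3))
    rw [← e1] at h5'
    by_contra hne
    rcases lt_or_gt_of_ne hne with hl | hl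
    · exact h5'.2.2.2 x hx h5.2.2.1 hl
    · exact h5.2.2.2 x' hx' h5'.2.2.1 hl

theorem st_exists (hl : Order.IsSuccLimit β) (c : ℕ) (w : Ordinal.{0}) (hw : w < β) :
    ∃ x < β, w ≤ x ∧ st P β c w x ∧ (c ∈ Zc (FD P) β → Silent (FD P) c x β) ∧
      (c ∉ Zc (FD P) β → ∃ f, w ≤ f ∧ f < x ∧ c ∈ FD P f) := by
  by_cases hc : c ∈ Zc (FD P) β
  · have hb : bt P β c = true := by simp [bt, hc]
    have hne : {x | x < β ∧ w ≤ x ∧ Silent (FD P) c x β}.Nonempty := by
      obtain ⟨a, ha, h⟩ := hc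
      exact ⟨max a w, max_lt ha hw, le_max_right _ _, fun α h1 h2 =>
        h α ((le_max_left _ _).trans h1) h2⟩
    have h1 := csInf_mem hne
    refine ⟨_, h1.1, h1.2.1, ?_, fun _ => h1.2.2, fun h => absurd hc h⟩
    refine ⟨h1.1, Or.inl ⟨hb, (le_iff P β _ _).mpr h1.2.1, (silF_iff P β _ _).mpr h1.2.2, ?_⟩⟩
    intro x' hx' h2 h3
    exact (le_iff P β _ _).mpr (csInf_le' ⟨hx', (le_iff P β _ _).mp h2, (silF_iff P β _ _).mp h3⟩)
  · have hb : bt P β c = false := by simp [bt, hc]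
    have hne : {f | f < β ∧ w ≤ f ∧ c ∈ FD P f}.Nonempty := by
      by_contra hne
      rw [Set.not_nonempty_iff_eq_empty] at hne
      apply hc
      refine ⟨w, hw, fun α h1 h2 h3 => ?_⟩
      have : α ∈ {f | f < β ∧ w ≤ f ∧ c ∈ FD P f} := ⟨h2, h1, h3⟩
      rw [hne] at this
      exact this
    have h1 := csInf_mem hne
    refine ⟨_ + 1, hl.add_one_lt h1.1, h1.2.1.trans (Order.lt_add_one_iff.mpr le_rfl).le, ?_,
      fun h => absurd h hc,
      fun _ => ⟨_, h1.2.1, Order.lt_add_one_iff.mpr le_rfl, h1.2.2⟩⟩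
    refine ⟨hl.add_one_lt h1.1, Or.inr ⟨hb, _, h1.1, (le_iff P β _ _).mpr h1.2.1, h1.2.2, ?_, ?_⟩⟩
    · intro f' hf' h2 h3
      exact (le_iff P β _ _).mpr (csInf_le' ⟨hf', (le_iff P β _ _).mp h2, h3⟩)
    · exact ⟨h1.1, hl.add_one_lt h1.1, Order.lt_add_one_iff.mpr le_rfl,
        fun d _ h2 h3 => absurd (Order.lt_add_one_iff.mp h3) (not_le.mpr h2)⟩

end Lim

/-- the sequence of cuts -/
theorem seq_exists (P : LPr) (β : Ordinal.{0}) (hl : Order.IsSuccLimit β) :
    ∃ γ : ℕ → Ordinal.{0}, γ 0 = 0 ∧ ∀ j, γ j < β ∧ γ j ≤ γ (j + 1) ∧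
      st P β (sch j) (γ j) (γ (j + 1)) ∧
      (sch j ∈ Zc (FD P) β → Silent (FD P) (sch j) (γ (j + 1)) β) ∧
      (sch j ∉ Zc (FD P) β → ∃ f, γ j ≤ f ∧ f < γ (j + 1) ∧ sch j ∈ FD P f) := by
  classical
  have h0 : (0 : Ordinal.{0}) < β := by
    rcases (bot_le : (⊥ : Ordinal.{0}) ≤ β).eq_or_lt with e | h
    · exfalso
      have := hl.1
      apply this
      rw [← e]
      exact isMin_bot
    · simpa using h
  choose! nx hnx using st_exists P β hl
  let γ : ℕ → Ordinal.{0} := fun j => Nat.rec 0 (fun j w => nx (sch j) w) j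
  have hγ : ∀ j, γ j < β := by
    intro j
    induction j with
    | zero => exact h0
    | succ j ih => exact (hnx (sch j) (γ j) ih).1
  refine ⟨γ, rfl, fun j => ?_⟩
  have h := hnx (sch j) (γ j) (hγ j)
  exact ⟨hγ j, h.2.1, h.2.2.1, h.2.2.2.1, h.2.2.2.2⟩

theorem cut_iff (P : LPr) (β : Ordinal.{0}) (γ : ℕ → Ordinal.{0})
    (h0 : γ 0 = 0) (hγ : ∀ j, γ j < β ∧ st P β (sch j) (γ j) (γ (j + 1)))
    (τ : List Bool) (hτ : (HD P β).tg (HD P β).frD τ) (j : ℕ) (hj : j ≤ τ.length)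
    (x : Ordinal.{0}) : (HD P β).cut (HD P β).frD τ j x ↔ x = γ j := by
  induction j generalizing x with
  | zero =>
    show (HD P β).isMin x ↔ _
    rw [h0]
    constructor
    · rintro ⟨h1, h2⟩
      by_contra hne
      have h3 : (0 : Ordinal.{0}) < x := by
        rcases (bot_le : (⊥ : Ordinal.{0}) ≤ x).eq_or_lt with e | h
        · exact absurd (by simpa using e.symm) hne
        · simpa using h
      exact h2 0 (lt_trans h3 h1) h3
    · rintro rfl
      refine ⟨h0 ▸ (hγ 0).1, fun b _ hb => ?_⟩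
      have : b < 0 := hb
      simp at this
  | succ j ih =>
    have hlt : sch j < τ.length := lt_of_le_of_lt (sch_le j) hj
    constructor
    · rintro ⟨w, hw, hs⟩
      rw [ih (Nat.le_of_succ_le hj)] at hw
      rw [hw, getD_eq P β τ hτ _ hlt] at hs
      exact st_unique P β _ _ _ _ hs (hγ j).2
    · rintro rfl
      refine ⟨γ j, (ih (Nat.le_of_succ_le hj) _).mpr rfl, ?_⟩
      rw [getD_eq P β τ hτ _ hlt]
      exact (hγ j).2

/-- the clock -/
theorem clock (P : LPr) (β : Ordinal.{0}) : 0 ∈ FD P β := by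
  rw [mem_FD]
  exact Or.inl (by simp [Nat.pair])

theorem cofinal (P : LPr) (β : Ordinal.{0}) (hl : Order.IsSuccLimit β)
    (hP : Pre (FD P) β) (γ : ℕ → Ordinal.{0})
    (hγ : ∀ j, γ j < β ∧ γ j ≤ γ (j + 1) ∧
      (sch j ∈ Zc (FD P) β → Silent (FD P) (sch j) (γ (j + 1)) β) ∧
      (sch j ∉ Zc (FD P) β → ∃ f, γ j ≤ f ∧ f < γ (j + 1) ∧ sch j ∈ FD P f))
    (a : Ordinal.{0}) (ha : a < β) : ∃ j, a < γ j := by
  by_contra hcon
  push Not at hcon
  have hne : {x | ∀ j, γ j ≤ x}.Nonempty := ⟨a, hcon⟩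
  set s := sInf {x | ∀ j, γ j ≤ x} with hs
  have hsu : ∀ j, γ j ≤ s := csInf_mem hne
  have hsβ : s < β := lt_of_le_of_lt (csInf_le' hcon) ha
  have hsl : ∀ x < s, ∃ j, x < γ j := by
    intro x hx
    by_contra hc
    push Not at hc
    exact absurd (csInf_le' (s := {x | ∀ j, γ j ≤ x}) hc) (not_le.mpr hx)
  have hmono : Monotone γ := monotone_nat_of_le_succ fun j => (hγ j).2.1
  have hclock : (0 : ℕ) ∉ Zc (FD P) β := by
    rintro ⟨b, hb, h⟩
    exact h b le_rfl hb (clock P b)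
  have hslt : ∀ j, γ j < s := by
    intro j
    obtain ⟨i, hi, hi'⟩ := sch_inf 0 j
    have h1 := (hγ i).2.2.2
    rw [hi'] at h1
    obtain ⟨f, h2, h3, _⟩ := h1 hclock
    exact lt_of_le_of_lt (hmono hi) (lt_of_lt_of_le (lt_of_le_of_lt h2 h3) (hsu _))
  have hs0 : (0 : Ordinal.{0}) < s := lt_of_le_of_lt (by simp) (hslt 0)
  have hlim : Order.IsSuccLimit s := by
    rw [Order.isSuccLimit_iff]
    refine ⟨?_, ?_⟩
    · intro h
      exact absurd (h hs0.le) (not_le.mpr hs0)
    · rw [Order.isSuccPrelimit_iff_succ_lt]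
      intro x hx
      obtain ⟨j, hj⟩ := hsl x hx
      exact lt_of_le_of_lt (Order.succ_le_of_lt hj) (hslt j)
  have hZ1 : ∀ c ∈ Zc (FD P) β, ∃ j, Silent (FD P) c (γ j) β := by
    intro c hc
    obtain ⟨i, _, hi⟩ := sch_inf c 0
    exact ⟨i + 1, by
      have := (hγ i).2.2.1
      rw [hi] at this
      exact this hc⟩
  have hloop : Loop (FD P) s β := by
    refine ⟨hsβ, hlim, hl, ?_, ?_⟩
    · apply Set.eq_of_subset_of_subset
      · intro c hc
        by_contra hc'
        obtain ⟨b, hb, h⟩ := hc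
        obtain ⟨j, hj⟩ := hsl b hb
        obtain ⟨i, hi, hi'⟩ := sch_inf c j
        have h1 := (hγ i).2.2.2
        rw [hi'] at h1
        obtain ⟨f, h2, h3, h4⟩ := h1 hc'
        exact h f (hj.le.trans ((hmono hi).trans h2)) (h3.trans (hslt _)) h4
      · intro c hc
        obtain ⟨j, hj⟩ := hZ1 c hc
        exact ⟨γ j, hslt j, fun α h1 h2 => hj α h1 (h2.trans hsβ)⟩
    · intro c hc α h1 h2
      have hc' : c ∈ Zc (FD P) β := by
        by_contra hc'
        obtain ⟨b, hb, h⟩ := hc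
        obtain ⟨j, hj⟩ := hsl b hb
        obtain ⟨i, hi, hi'⟩ := sch_inf c j
        have h1 := (hγ i).2.2.2
        rw [hi'] at h1
        obtain ⟨f, h2, h3, h4⟩ := h1 hc'
        exact h f (hj.le.trans ((hmono hi).trans h2)) (h3.trans (hslt _)) h4
      obtain ⟨j, hj⟩ := hZ1 c hc'
      exact hj α ((hsu j).trans h1) h2
  exact absurd (hP s β hloop) (lt_irrefl _)

theorem isMax_succ (P : LPr) (δ m : Ordinal.{0}) : (HD P (δ + 1)).isMax m ↔ m = δ := by
  constructor
  · rintro ⟨h1, h2⟩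
    rcases (Order.lt_add_one_iff.mp h1).eq_or_lt with e | h
    · exact e
    · exact absurd h (h2 δ (Order.lt_add_one_iff.mpr le_rfl))
  · rintro rfl
    exact ⟨Order.lt_add_one_iff.mpr le_rfl, fun b hb h =>
      absurd (Order.lt_add_one_iff.mp hb) (not_le.mpr h)⟩

/-- MODULE N: the canonical numbering is defined and injective before the end of the first loop. -/
theorem numOK (P : LPr) (β : Ordinal.{0}) : Pre (FD P) β → NumOK P β := by
  induction β using WellFounded.induction Ordinal.lt_wf with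
  | _ β ih =>
    intro hP
    have ih' : ∀ γ < β, NumOK P γ := fun γ hγ => ih γ hγ fun η δ h => hγ.trans (hP η δ h)
    rcases Ordinal.zero_or_succ_or_isSuccLimit β with rfl | ⟨δ, rfl⟩ | hl
    · refine ⟨fun a ha => ?_, fun a a' k h => ?_⟩
      · simp at ha
      · have := numD_lt P _ _ _ h
        simp at this
    · rw [Order.succ_eq_add_one] at *
      have hδ : δ < δ + 1 := Order.lt_add_one_iff.mpr le_rfl
      have key : ∀ a k, numD P (δ + 1) a k ↔
          (a = δ ∧ k = 0) ∨ (a < δ ∧ ∃ k', numD P δ a k' ∧ k = k' + 1) := by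
        intro a k
        rw [numD_eq]
        constructor
        · rintro (⟨m, hm, h⟩ | ⟨h, _⟩)
          · rw [isMax_succ] at hm
            rw [hm] at h
            exact h
          · exact absurd ((isMax_succ P δ δ).mpr rfl) (h.2 δ)
        · intro h
          exact Or.inl ⟨δ, (isMax_succ P δ δ).mpr rfl, h⟩
      refine ⟨fun a ha => ?_, fun a a' k h h' => ?_⟩
      · rcases (Order.lt_add_one_iff.mp ha).eq_or_lt with e | h
        · exact ⟨0, (key a 0).mpr (Or.inl ⟨e, rfl⟩)⟩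
        · obtain ⟨k', hk'⟩ := (ih' δ hδ).ex a h
          exact ⟨k' + 1, (key a _).mpr (Or.inr ⟨h, k', hk', rfl⟩)⟩
      · rw [key] at h h'
        rcases h with ⟨h1, h2⟩ | ⟨h1, k1, h2, h3⟩ <;>
        rcases h' with ⟨h1', h2'⟩ | ⟨h1', k1', h2', h3'⟩
        · rw [h1, h1']
        · omega
        · omega
        · have : k1 = k1' := by omega
          rw [← this] at h2'
          exact (ih' δ hδ).inj _ _ _ h2 h2'
    · obtain ⟨γ, h0, hγ⟩ := seq_exists P β hl
      have hcut := cut_iff P β γ h0 fun j => ⟨(hγ j).1, (hγ j).2.2.1⟩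
      have hcof := cofinal P β hl hP γ fun j =>
        ⟨(hγ j).1, (hγ j).2.1, (hγ j).2.2.2.1, (hγ j).2.2.2.2⟩
      have hnomax : ∀ m, ¬ (HD P β).isMax m := fun m hm =>
        hm.2 (m + 1) (hl.add_one_lt hm.1) (Order.lt_add_one_iff.mpr le_rfl)
      have hisLim : (HD P β).isLim := ⟨⟨γ 0, (hγ 0).1⟩, hnomax⟩
      have key : ∀ a k, numD P β a k ↔ a < β ∧ ∃ n, a < γ n ∧ γ (n - 1) ≤ a ∧
          ∃ k', numD P (γ n) a k' ∧ k = Nat.pair n k' := by
        intro a k
        rw [numD_eq]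
        constructor
        · rintro (⟨m, hm, h⟩ | ⟨_, ha, τ, g, h1, h2, h3, h4, k', h5, h6⟩)
          · exact absurd hm (hnomax m)
          · rw [hcut τ h1 _ le_rfl] at h2
            rw [h2] at h3 h5
            refine ⟨ha, τ.length, h3, ?_, k', h5, h6⟩
            exact not_lt.mp (h4 _ ((hcut τ h1 _ (Nat.sub_le _ _) _).mpr rfl))
        · rintro ⟨ha, n, h1, h2, k', h3, h4⟩
          refine Or.inr ⟨hisLim, ha, tl P β n, γ n, tg_tl P β n, ?_, h1, ?_, k', h3, ?_⟩
          · exact (hcut _ (tg_tl P β n) _ le_rfl _).mpr (by rw [tl_length])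
          · intro g' hg'
            rw [hcut _ (tg_tl P β n) _ (Nat.sub_le _ _), tl_length] at hg'
            rw [hg']
            exact not_lt.mpr h2
          · rw [tl_length]
            exact h4
      refine ⟨fun a ha => ?_, fun a a' k h h' => ?_⟩
      · classical
        have hex := hcof a ha
        have h1 := Nat.find_spec hex
        have h2 : γ (Nat.find hex - 1) ≤ a := by
          rcases Nat.eq_zero_or_pos (Nat.find hex) with e | hpos
          · rw [e, h0] at h1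
            simp at h1
          · exact not_lt.mp (Nat.find_min hex (Nat.sub_lt hpos Nat.one_pos))
        obtain ⟨k', hk'⟩ := (ih' _ (hγ (Nat.find hex)).1).ex a h1
        exact ⟨_, (key a _).mpr ⟨ha, _, h1, h2, k', hk', rfl⟩⟩
      · rw [key] at h h'
        obtain ⟨_, n, h1, h2, k1, h3, h4⟩ := h
        obtain ⟨_, n', h1', h2', k1', h3', h4'⟩ := h'
        rw [h4, Nat.pair_eq_pair] at h4'
        rw [← h4'.1, ← h4'.2] at h3'
        exact (ih' _ (hγ n).1).inj _ _ _ h3 h3'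

/-- CHAPTER LL, part 2. -/
theorem LLfin (P : LPr) (β : Ordinal.{0}) (hβ : ∀ η δ, Loop (FD P) η δ → β < δ) (x : Real2)
    (hx : RealIn x (Lh β)) : ∃ γ < β, ∃ j, ∀ n, x n = true ↔ rlL (labD P γ) j n :=
  real_listed P β (fun γ hγ => numOK P γ fun η δ h => hγ.trans (hβ η δ h)) x hx

end Pool.Agent.Helper81.LL
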