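import Pool.Agent.Helper25.EV.LLdef

/-!
# Chapter LL: basic facts on the constructible hierarchy
-/

set_option autoImplicit false

namespace Pool.Agent.Helper81.LL

open Pool.Agent.Helper25.EV

theorem Lh_zero : Lh 0 = ∅ := by
  unfold Lh
  exact Ordinal.limitRecOn_zero ..

theorem Lh_succ (α : Ordinal.{0}) : Lh (α + 1) = DefSet (Lh α) := by
  unfold Lh
  exact Ordinal.limitRecOn_add_one ..

theorem Lh_lim (l : Ordinal.{0}) (hl : Order.IsSuccLimit l) (X : ZFSet.{0}) :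
    X ∈ Lh l ↔ ∃ β < l, X ∈ Lh β := by
  have h : Lh l = {X | ∃ (β : Ordinal) (_ : β < l), X ∈ Lh β} := by
    unfold Lh
    exact Ordinal.limitRecOn_limit _ _ _ _ hl
  rw [h]
  simp only [Set.mem_ofPred_eq, exists_prop]

theorem Sat_congr (A : Set ZFSet.{0}) (φ : Fml) :
    ∀ s s' : ℕ → ZFSet.{0}, (∀ j ∈ φ.fv, s j = s' j) → (Sat A φ s ↔ Sat A φ s') := by
  induction φ with
  | mem i j =>
    intro s s' h
    have h1 := h i (by simp [Fml.fv])
    have h2 := h j (by simp [Fml.fv])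
    simp only [Sat, h1, h2]
  | eq i j =>
    intro s s' h
    have h1 := h i (by simp [Fml.fv])
    have h2 := h j (by simp [Fml.fv])
    simp only [Sat, h1, h2]
  | neg φ ih =>
    intro s s' h
    simp only [Sat]
    exact not_congr (ih s s' h)
  | and φ ψ ih1 ih2 =>
    intro s s' h
    simp only [Sat]
    exact and_congr (ih1 s s' fun j hj => h j (Or.inl hj)) (ih2 s s' fun j hj => h j (Or.inr hj))
  | ex i φ ih =>
    intro s s' h
    simp only [Sat]
    refine exists_congr fun a => and_congr_right fun _ => ih _ _ fun j hj => ?_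
    by_cases e : j = i
    · rw [e, Function.update_self, Function.update_self]
    · rw [Function.update_of_ne e, Function.update_of_ne e]
      exact h j ⟨hj, e⟩

/-- elements of definable sets -/
theorem DefSet_sub {A : Set ZFSet.{0}} {X : ZFSet.{0}} (hX : X ∈ DefSet A) {z : ZFSet.{0}}
    (hz : z ∈ X) : z ∈ A := by
  obtain ⟨φ, s, _, h⟩ := hX
  exact ((h z).mp hz).1

theorem sub_DefSet {A : Set ZFSet.{0}} (hA : ∀ X ∈ A, ∀ z ∈ X, z ∈ A) : A ⊆ DefSet A := by
  intro X hX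
  refine ⟨Fml.mem 0 1, fun _ => X, fun _ _ _ => hX, fun a => ?_⟩
  simp only [Sat, Function.update_self]
  rw [Function.update_of_ne (by norm_num : (1 : ℕ) ≠ 0)]
  exact ⟨fun h => ⟨hA X hX a h, h⟩, fun h => h.2⟩

theorem Lh_props (β : Ordinal.{0}) :
    (∀ X ∈ Lh β, ∀ z ∈ X, z ∈ Lh β) ∧ ∀ α ≤ β, Lh α ⊆ Lh β := by
  induction β using Ordinal.limitRecOn with
  | zero =>
    constructor
    · intro X hX
      rw [Lh_zero] at hX
      exact absurd hX (Set.notMem_empty _)
    · intro α hα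
      have : α = 0 := le_antisymm hα (by simp)
      rw [this]
  | add_one β ih =>
    have h1 : Lh β ⊆ Lh (β + 1) := by
      rw [Lh_succ]
      exact sub_DefSet ih.1
    constructor
    · intro X hX z hz
      apply h1
      rw [Lh_succ] at hX
      exact DefSet_sub hX hz
    · intro α hα
      rcases hα.eq_or_lt with e | l
      · rw [e]
      · exact (ih.2 α (Order.lt_add_one_iff.mp l)).trans h1
  | limit l hl ih =>
    constructor
    · intro X hX z hz
      rw [Lh_lim l hl] at hX ⊢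
      obtain ⟨β, hβ, hX⟩ := hX
      exact ⟨β, hβ, (ih β hβ).1 X hX z hz⟩
    · intro α hα
      rcases hα.eq_or_lt with e | h
      · rw [e]
      · intro X hX
        rw [Lh_lim l hl]
        exact ⟨α, h, hX⟩

theorem Lh_trans {β : Ordinal.{0}} {X z : ZFSet.{0}} (hX : X ∈ Lh β) (hz : z ∈ X) : z ∈ Lh β :=
  (Lh_props β).1 X hX z hz

theorem Lh_mono' {α β : Ordinal.{0}} (h : α ≤ β) : Lh α ⊆ Lh β := (Lh_props β).2 α h

/-! ## Codes of formulas -/

theorem fdec_surj (φ : Fml) : ∃ n, fdec n = φ := by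
  induction φ with
  | mem i j =>
    refine ⟨Nat.pair 0 (Nat.pair i j), ?_⟩
    rw [fdec]
    simp [Nat.unpair_pair]
  | eq i j =>
    refine ⟨Nat.pair 1 (Nat.pair i j), ?_⟩
    rw [fdec]
    simp [Nat.unpair_pair]
  | neg φ ih =>
    obtain ⟨n, hn⟩ := ih
    refine ⟨Nat.pair 2 n, ?_⟩
    rw [fdec]
    simp [Nat.unpair_pair, hn]
  | and φ ψ ih1 ih2 =>
    obtain ⟨n, hn⟩ := ih1
    obtain ⟨m, hm⟩ := ih2
    refine ⟨Nat.pair 3 (Nat.pair n m), ?_⟩
    rw [fdec]
    simp [Nat.unpair_pair, hn, hm]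
  | ex i φ ih =>
    obtain ⟨n, hn⟩ := ih
    refine ⟨Nat.pair 4 (Nat.pair i n), ?_⟩
    rw [fdec]
    simp [Nat.unpair_pair, hn]

theorem fv_bdd (φ : Fml) : ∃ M, ∀ j ∈ φ.fv, j < M := by
  induction φ with
  | mem i j =>
    refine ⟨max i j + 1, ?_⟩
    rintro k (rfl | rfl)
    · exact Nat.lt_succ_of_le (le_max_left _ _)
    · exact Nat.lt_succ_of_le (le_max_right _ _)
  | eq i j =>
    refine ⟨max i j + 1, ?_⟩
    rintro k (rfl | rfl)
    · exact Nat.lt_succ_of_le (le_max_left _ _)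
    · exact Nat.lt_succ_of_le (le_max_right _ _)
  | neg φ ih => exact ih
  | and φ ψ ih1 ih2 =>
    obtain ⟨M, hM⟩ := ih1
    obtain ⟨M', hM'⟩ := ih2
    refine ⟨max M M', ?_⟩
    rintro k (h | h)
    · exact lt_of_lt_of_le (hM k h) (le_max_left _ _)
    · exact lt_of_lt_of_le (hM' k h) (le_max_right _ _)
  | ex i φ ih =>
    obtain ⟨M, hM⟩ := ih
    exact ⟨M, fun k hk => hM k hk.1⟩

theorem vN_mem {n : ℕ} {z : ZFSet.{0}} : z ∈ vN n ↔ ∃ m < n, z = vN m := by
  induction n with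
  | zero => simp [vN]
  | succ n ih =>
    rw [vN, ZFSet.mem_insert_iff, ih]
    constructor
    · rintro (rfl | ⟨m, hm, rfl⟩)
      · exact ⟨n, Nat.lt_succ_self n, rfl⟩
      · exact ⟨m, Nat.lt_succ_of_lt hm, rfl⟩
    · rintro ⟨m, hm, rfl⟩
      rcases Nat.lt_succ_iff_lt_or_eq.mp hm with h | rfl
      · exact Or.inr ⟨m, h, rfl⟩
      · exact Or.inl rfl

theorem vN_inj {m n : ℕ} (h : vN m = vN n) : m = n := by
  by_contra hne
  rcases Nat.lt_or_gt_of_ne hne with h1 | h1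
  · have h2 : vN m ∈ vN n := vN_mem.mpr ⟨m, h1, rfl⟩
    rw [h] at h2
    exact ZFSet.mem_irrefl _ h2
  · have h2 : vN n ∈ vN m := vN_mem.mpr ⟨n, h1, rfl⟩
    rw [h] at h2
    exact ZFSet.mem_irrefl _ h2

end Pool.Agent.Helper81.LL
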