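import Pool.Agent.Helper25.EV.ProcLem
import Pool.Agent.Helper81.LL.Lh

/-!
# Chapter LL: the values of the names
-/

set_option autoImplicit false

namespace Pool.Agent.Helper81.LL

open Pool.Agent.Helper25.EV Encodable

/-- the canonical numbering of the stage `β` is defined everywhere and injective -/
structure NumOK (P : LPr) (β : Ordinal.{0}) : Prop where
  ex : ∀ a < β, ∃ k, numD P β a k
  inj : ∀ a a' k, numD P β a k → numD P β a' k → a = a'

/-! ## The labels with the tags 6, 7, 8 -/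

theorem lab_tag (P : LPr) (γ : Ordinal.{0}) (t m : ℕ) (h : 6 ≤ t) :
    Nat.pair t m ∈ labD P γ ↔ Nat.pair t m ∈ (HD P γ).newL := by
  rw [labD_eq]
  constructor
  · rintro (⟨d', h, h'⟩ | ⟨p, h, _⟩ | ⟨x, σ, τ, h, _⟩ | ⟨x, k, n, σ, i, h, _⟩ |
        ⟨x, k, n, σ, i, h, _⟩ | ⟨η, a, x, σ, k, k', h, _⟩ | h)
    all_goals
      first
      | exact h
      | (have := congrArg (fun m => (Nat.unpair m).1) h
         simp only [Nat.unpair_pair] at this
         omega)
  · exact fun h => Or.inr (Or.inr (Or.inr (Or.inr (Or.inr (Or.inr h)))))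

theorem lab7 (P : LPr) (γ : Ordinal.{0}) (i : ℕ) :
    Nat.pair 7 i ∈ labD P γ ↔ (HD P γ).valI i := by
  rw [lab_tag P γ 7 i (by norm_num)]
  constructor
  · rintro (⟨i', h, h'⟩ | ⟨i', δ, k, i'', h, _⟩ | ⟨i', n, h, _⟩)
    · rw [Nat.pair_eq_pair] at h
      rw [h.2]
      exact h'
    · rw [Nat.pair_eq_pair] at h
      omega
    · rw [Nat.pair_eq_pair] at h
      omega
  · exact fun h => Or.inl ⟨i, rfl, h⟩

theorem lab6 (P : LPr) (γ : Ordinal.{0}) (i k i' : ℕ) :
    Nat.pair 6 (encode (i, k, i')) ∈ labD P γ ↔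
      (HD P γ).valI i ∧ ∃ δ, (HD P γ).inI i (δ, i') ∧ numD P γ δ k := by
  rw [lab_tag P γ 6 _ (by norm_num)]
  constructor
  · rintro (⟨i', h, h'⟩ | ⟨i', δ, k', i'', h, h1, h2, h3⟩ | ⟨i', n, h, _⟩)
    · rw [Nat.pair_eq_pair] at h
      omega
    · rw [Nat.pair_eq_pair] at h
      have h4 := encode_injective h.2
      simp only [Prod.mk.injEq] at h4
      obtain ⟨rfl, rfl, rfl⟩ := h4
      exact ⟨h1, δ, h2, (numD_eq P γ δ k).mpr h3⟩
    · rw [Nat.pair_eq_pair] at h
      omega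
  · rintro ⟨h1, δ, h2, h3⟩
    exact Or.inr (Or.inl ⟨i, δ, k, i', rfl, h1, h2, (numD_eq P γ δ k).mp h3⟩)

theorem lab8 (P : LPr) (γ : Ordinal.{0}) (i n : ℕ) :
    Nat.pair 8 (encode (i, n)) ∈ labD P γ ↔
      (HD P γ).valI i ∧ ∃ a, (HD P γ).inI i a ∧ (HD P γ).vnN n a := by
  rw [lab_tag P γ 8 _ (by norm_num)]
  constructor
  · rintro (⟨i', h, h'⟩ | ⟨i', δ, k', i'', h, h1, h2, h3⟩ | ⟨i', n', h, h1, h2⟩)
    · rw [Nat.pair_eq_pair] at h
      omega
    · rw [Nat.pair_eq_pair] at h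
      omega
    · rw [Nat.pair_eq_pair] at h
      have h4 := encode_injective h.2
      simp only [Prod.mk.injEq] at h4
      obtain ⟨rfl, rfl⟩ := h4
      exact ⟨h1, h2⟩
  · rintro ⟨h1, h2⟩
    exact Or.inr (Or.inr ⟨i, n, rfl, h1, h2⟩)

theorem isN_iff (P : LPr) (β : Ordinal.{0}) (a : Ordinal.{0} × ℕ) :
    (HD P β).isN a ↔ a.1 < β ∧ (HD P a.1).valI a.2 := by
  unfold Hs.isN
  rw [← lab7]
  rfl

theorem memN_iff (P : LPr) (β : Ordinal.{0}) (hN : ∀ γ < β, NumOK P γ) (b a : Ordinal.{0} × ℕ) :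
    (HD P β).memN b a ↔
      (HD P β).isN b ∧ (HD P β).isN a ∧ b.1 < a.1 ∧ (HD P a.1).inI a.2 b := by
  constructor
  · rintro ⟨hb, ha, hlt, k, hk, hl⟩
    refine ⟨hb, ha, hlt, ?_⟩
    have h1 := (lab6 P a.1 a.2 k b.2).mp hl
    obtain ⟨_, δ, h2, h3⟩ := h1
    have h4 : δ = b.1 := (hN a.1 ha.1).inj _ _ k h3 hk
    rw [h4] at h2
    exact h2
  · rintro ⟨hb, ha, hlt, h⟩
    obtain ⟨k, hk⟩ := (hN a.1 ha.1).ex b.1 hlt
    exact ⟨hb, ha, hlt, k, hk, (lab6 P a.1 a.2 k b.2).mpr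
      ⟨((isN_iff P β a).mp ha).2, b.1, h, hk⟩⟩

/-! ## Assignments -/

theorem asg_unique (P : LPr) (β : Ordinal.{0}) (p : List (ℕ × ℕ))
    (s s' : ℕ → Option (Ordinal.{0} × ℕ)) (h : (HD P β).asg p s) (h' : (HD P β).asg p s') :
    s = s' := by
  funext j
  refine Option.ext fun a => ?_
  exact (h j a).trans (h' j a).symm

theorem asg_exists (P : LPr) (β : Ordinal.{0}) (hN : NumOK P β) (p : List (ℕ × ℕ)) :
    ∃ s, (HD P β).asg p s := by
  classical
  refine ⟨fun j => if h : ∃ a, (HD P β).isN a ∧ ∃ k, (HD P β).nD a.1 k ∧ p[j]? = some (k, a.2)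
    then some h.choose else none, fun j a => ?_⟩
  beta_reduce
  split_ifs with h
  · rw [Option.some_inj]
    constructor
    · rintro rfl
      exact h.choose_spec
    · rintro ⟨h1, k, h2, h3⟩
      obtain ⟨_, k', h2', h3'⟩ := h.choose_spec
      have h6 := h3.symm.trans h3'
      rw [Option.some_inj, Prod.mk.injEq] at h6
      obtain ⟨rfl, h4⟩ := h6
      have h5 := hN.inj _ _ k ((numD_eq P β _ _).mpr h2) ((numD_eq P β _ _).mpr h2')
      exact (Prod.ext h5 h4).symm
  · constructor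
    · intro h'
      exact absurd h' (by simp)
    · intro h'
      exact absurd ⟨a, h'⟩ h

theorem idx_unique (P : LPr) (β : Ordinal.{0}) (i : ℕ) (φ φ' : Fml)
    (s s' : ℕ → Option (Ordinal.{0} × ℕ)) (h : (HD P β).idx i φ s) (h' : (HD P β).idx i φ' s') :
    φ = φ' ∧ s = s' := by
  obtain ⟨n, p, rfl, rfl, h3, _⟩ := h
  obtain ⟨n', p', e, rfl, h3', _⟩ := h'
  have h4 := encode_injective e
  simp only [Prod.mk.injEq] at h4
  obtain ⟨rfl, rfl⟩ := h4
  exact ⟨rfl, asg_unique P β p s s' h3 h3'⟩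

theorem inI_iff (P : LPr) (β : Ordinal.{0}) (i : ℕ) (φ : Fml)
    (s : ℕ → Option (Ordinal.{0} × ℕ)) (h : (HD P β).idx i φ s) (a : Ordinal.{0} × ℕ) :
    (HD P β).inI i a ↔ (HD P β).isN a ∧ (HD P β).satN φ (Function.update s 0 (some a)) := by
  constructor
  · rintro ⟨h1, φ', s', h2, h3⟩
    obtain ⟨rfl, rfl⟩ := idx_unique P β i _ _ _ _ h h2
    exact ⟨h1, h3⟩
  · rintro ⟨h1, h2⟩
    exact ⟨h1, φ, s, h, h2⟩

/-! ## The values -/

/-- the set which is named by `(γ, i)` -/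
noncomputable def S (P : LPr) : Ordinal.{0} → ℕ → ZFSet.{0} :=
  Ordinal.lt_wf.fix fun γ ih i =>
    ZFSet.range (fun b : {b : Set.Iio γ × ℕ // (HD P γ).inI i (b.1.1, b.2)} =>
      ih b.1.1.1 b.1.1.2 b.1.2)

theorem S_mem (P : LPr) (γ : Ordinal.{0}) (i : ℕ) (z : ZFSet.{0}) :
    z ∈ S P γ i ↔ ∃ b : Ordinal.{0} × ℕ, (HD P γ).inI i b ∧ S P b.1 b.2 = z := by
  have h : S P γ i = ZFSet.range
      (fun b : {b : Set.Iio γ × ℕ // (HD P γ).inI i (b.1.1, b.2)} => S P b.1.1.1 b.1.2) := by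
    unfold S
    rw [WellFounded.fix_eq]
  rw [h, ZFSet.mem_range]
  constructor
  · rintro ⟨⟨⟨⟨b, hb⟩, j⟩, h1⟩, rfl⟩
    exact ⟨(b, j), h1, rfl⟩
  · rintro ⟨⟨b, j⟩, h1, rfl⟩
    exact ⟨⟨⟨⟨b, h1.1.1⟩, j⟩, h1⟩, rfl⟩

/-- the names below `β` name the elements of `L_β` -/
structure Good (P : LPr) (β : Ordinal.{0}) : Prop where
  surj : ∀ X ∈ Lh β, ∃ b, (HD P β).isN b ∧ S P b.1 b.2 = X
  val : ∀ b, (HD P β).isN b → S P b.1 b.2 ∈ Lh β
  inj : ∀ b b', (HD P β).isN b → (HD P β).isN b' → S P b.1 b.2 = S P b'.1 b'.2 → b = b'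
  mem : ∀ b a, (HD P β).isN b → (HD P β).isN a →
    ((HD P β).memN b a ↔ S P b.1 b.2 ∈ S P a.1 a.2)

theorem Good.sat {P : LPr} {β : Ordinal.{0}} (G : Good P β) (φ : Fml) :
    ∀ (s : ℕ → Option (Ordinal.{0} × ℕ)) (s' : ℕ → ZFSet.{0}),
      (∀ j ∈ φ.fv, ∃ a, s j = some a ∧ (HD P β).isN a ∧ s' j = S P a.1 a.2) →
      ((HD P β).satN φ s ↔ Sat (Lh β) φ s') := by
  induction φ with
  | mem i j =>
    intro s s' h
    obtain ⟨a, h1, h2, h3⟩ := h i (by simp [Fml.fv])
    obtain ⟨b, h4, h5, h6⟩ := h j (by simp [Fml.fv])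
    simp only [Hs.satN, Sat, h1, h4, h3, h6, Option.some_inj]
    constructor
    · rintro ⟨a', b', rfl, rfl, h⟩
      exact (G.mem _ _ h2 h5).mp h
    · intro h
      exact ⟨a, b, rfl, rfl, (G.mem _ _ h2 h5).mpr h⟩
  | eq i j =>
    intro s s' h
    obtain ⟨a, h1, h2, h3⟩ := h i (by simp [Fml.fv])
    obtain ⟨b, h4, h5, h6⟩ := h j (by simp [Fml.fv])
    simp only [Hs.satN, Sat, h1, h4, h3, h6, Option.some_inj]
    constructor
    · rintro rfl
      rfl
    · exact G.inj _ _ h2 h5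
  | neg φ ih =>
    intro s s' h
    simp only [Hs.satN, Sat]
    exact not_congr (ih s s' h)
  | and φ ψ ih1 ih2 =>
    intro s s' h
    simp only [Hs.satN, Sat]
    exact and_congr (ih1 s s' fun j hj => h j (Or.inl hj)) (ih2 s s' fun j hj => h j (Or.inr hj))
  | ex i φ ih =>
    intro s s' h
    simp only [Hs.satN, Sat]
    have key : ∀ a, (HD P β).isN a → ((HD P β).satN φ (Function.update s i (some a)) ↔
        Sat (Lh β) φ (Function.update s' i (S P a.1 a.2))) := by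
      intro a ha
      refine ih _ _ fun j hj => ?_
      by_cases e : j = i
      · rw [e, Function.update_self, Function.update_self]
        exact ⟨a, rfl, ha, rfl⟩
      · rw [Function.update_of_ne e, Function.update_of_ne e]
        exact h j ⟨hj, e⟩
    constructor
    · rintro ⟨a, ha, h1⟩
      exact ⟨S P a.1 a.2, G.val a ha, (key a ha).mp h1⟩
    · rintro ⟨X, hX, h1⟩
      obtain ⟨a, ha, rfl⟩ := G.surj X hX
      exact ⟨a, ha, (key a ha).mpr h1⟩

/-- membership in the set with a defined index -/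
theorem Good.inI_iff {P : LPr} {β : Ordinal.{0}} (G : Good P β) (i : ℕ) (a : Ordinal.{0} × ℕ)
    (ha : (HD P β).isN a) : (HD P β).inI i a ↔ S P a.1 a.2 ∈ S P β i := by
  rw [S_mem]
  constructor
  · intro h
    exact ⟨a, h, rfl⟩
  · rintro ⟨b, hb, e⟩
    rw [← G.inj b a hb.1 ha e]
    exact hb

/-- a defined index names a definable set -/
theorem Good.def_of_idx {P : LPr} {β : Ordinal.{0}} (G : Good P β) (i : ℕ)
    (h : ∃ φ s, (HD P β).idx i φ s) : S P β i ∈ DefSet (Lh β) := by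
  classical
  obtain ⟨φ, s, h⟩ := h
  have hfv : ∀ j ∈ φ.fv, j ≠ 0 → ∃ a, s j = some a ∧ (HD P β).isN a := by
    obtain ⟨n, p, h1, h2, h3, h4⟩ := h
    intro j hj hj0
    obtain ⟨a, ha⟩ := Option.ne_none_iff_exists'.mp (h4 j hj hj0)
    exact ⟨a, ha, ((h3 j a).mp ha).1⟩
  refine ⟨φ, fun j => match s j with | some a => S P a.1 a.2 | none => ∅, ?_, ?_⟩
  · intro j hj hj0
    obtain ⟨a, ha, ha'⟩ := hfv j hj hj0
    simp only [ha]
    exact G.val a ha'
  · intro z
    have key : ∀ b, (HD P β).isN b → ((HD P β).satN φ (Function.update s 0 (some b)) ↔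
        Sat (Lh β) φ (Function.update
          (fun j => match s j with | some a => S P a.1 a.2 | none => ∅) 0 (S P b.1 b.2))) := by
      intro b hb
      refine G.sat φ _ _ fun j hj => ?_
      by_cases e : j = 0
      · rw [e, Function.update_self, Function.update_self]
        exact ⟨b, rfl, hb, rfl⟩
      · rw [Function.update_of_ne e, Function.update_of_ne e]
        obtain ⟨a, ha, ha'⟩ := hfv j hj e
        exact ⟨a, ha, ha', by simp only [ha]⟩
    rw [S_mem]
    constructor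
    · rintro ⟨b, hb, rfl⟩
      have h5 := (LL.inI_iff P β i φ s h b).mp hb
      exact ⟨G.val b hb.1, (key b hb.1).mp h5.2⟩
    · rintro ⟨hz, h5⟩
      obtain ⟨b, hb, rfl⟩ := G.surj z hz
      exact ⟨b, (LL.inI_iff P β i φ s h b).mpr ⟨hb, (key b hb).mpr h5⟩, rfl⟩

/-- each definable set has a defined index -/
theorem Good.idx_of_def {P : LPr} {β : Ordinal.{0}} (G : Good P β) (hN : NumOK P β)
    (X : ZFSet.{0}) (hX : X ∈ DefSet (Lh β)) :
    ∃ i, (∃ φ s, (HD P β).idx i φ s) ∧ S P β i = X := by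
  classical
  obtain ⟨φ, s', h1, h2⟩ := hX
  obtain ⟨M, hM⟩ := fv_bdd φ
  obtain ⟨n, hn⟩ := fdec_surj φ
  -- the names of the parameters
  have h3 : ∀ j, ∃ r : ℕ × ℕ, (j ∈ φ.fv ∧ j ≠ 0) → ∃ a : Ordinal.{0} × ℕ, (HD P β).isN a ∧
      numD P β a.1 r.1 ∧ r.2 = a.2 ∧ s' j = S P a.1 a.2 := by
    intro j
    by_cases hj : j ∈ φ.fv ∧ j ≠ 0
    · obtain ⟨a, ha, ha'⟩ := G.surj _ (h1 j hj.1 hj.2)
      obtain ⟨k, hk⟩ := hN.ex a.1 ha.1
      exact ⟨(k, a.2), fun _ => ⟨a, ha, hk, rfl, ha'.symm⟩⟩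
    · exact ⟨(0, 0), fun h => absurd h hj⟩
  choose r hr using h3
  obtain ⟨s, hs⟩ := asg_exists P β hN ((List.range M).map r)
  have h4 : ∀ j ∈ φ.fv, j ≠ 0 → ∃ a, s j = some a ∧ (HD P β).isN a ∧ s' j = S P a.1 a.2 := by
    intro j hj hj0
    obtain ⟨a, ha, hk, e, h5⟩ := hr j ⟨hj, hj0⟩
    refine ⟨a, (hs j a).mpr ⟨ha, (r j).1, (numD_eq P β _ _).mp hk, ?_⟩, ha, h5⟩
    rw [List.getElem?_map, List.getElem?_range (hM j hj), Option.map_some, ← e]
  have hidx : (HD P β).idx (encode (n, (List.range M).map r)) φ s := by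
    refine ⟨n, _, rfl, hn.symm, hs, fun j hj hj0 => ?_⟩
    obtain ⟨a, ha, _⟩ := h4 j hj hj0
    rw [ha]
    exact Option.some_ne_none _
  refine ⟨_, ⟨φ, s, hidx⟩, ?_⟩
  apply ZFSet.ext
  intro z
  have key : ∀ b, (HD P β).isN b → ((HD P β).satN φ (Function.update s 0 (some b)) ↔
      Sat (Lh β) φ (Function.update s' 0 (S P b.1 b.2))) := by
    intro b hb
    refine G.sat φ _ _ fun j hj => ?_
    by_cases e : j = 0
    · rw [e, Function.update_self, Function.update_self]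
      exact ⟨b, rfl, hb, rfl⟩
    · rw [Function.update_of_ne e, Function.update_of_ne e]
      exact h4 j hj e
  rw [S_mem, h2]
  constructor
  · rintro ⟨b, hb, rfl⟩
    exact ⟨G.val b hb.1, (key b hb.1).mp ((LL.inI_iff P β _ φ s hidx b).mp hb).2⟩
  · rintro ⟨hz, h5⟩
    obtain ⟨b, hb, rfl⟩ := G.surj z hz
    exact ⟨b, (LL.inI_iff P β _ φ s hidx b).mpr ⟨hb, (key b hb).mpr h5⟩, rfl⟩

/-- two indices name the same set iff they have the same elements -/
theorem Good.S_eq_iff {P : LPr} {β : Ordinal.{0}} (G : Good P β) (i i' : ℕ) :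
    S P β i = S P β i' ↔ ∀ a, (HD P β).isN a → ((HD P β).inI i a ↔ (HD P β).inI i' a) := by
  constructor
  · intro h a ha
    rw [G.inI_iff i a ha, G.inI_iff i' a ha, h]
  · intro h
    apply ZFSet.ext
    intro z
    rw [S_mem, S_mem]
    constructor
    · rintro ⟨b, hb, rfl⟩
      exact ⟨b, (h b hb.1).mp hb, rfl⟩
    · rintro ⟨b, hb, rfl⟩
      exact ⟨b, (h b hb.1).mpr hb, rfl⟩

/-- an index names an old set iff it has the same elements as an old name -/
theorem Good.S_eq_old {P : LPr} {β : Ordinal.{0}} (G : Good P β) (i : ℕ) (b : Ordinal.{0} × ℕ)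
    (hb : (HD P β).isN b) :
    S P β i = S P b.1 b.2 ↔ ∀ a, (HD P β).isN a → ((HD P β).inI i a ↔ (HD P β).memN a b) := by
  constructor
  · intro h a ha
    rw [G.inI_iff i a ha, G.mem a b ha hb, h]
  · intro h
    apply ZFSet.ext
    intro z
    rw [S_mem]
    constructor
    · rintro ⟨a, ha, rfl⟩
      exact (G.mem a b ha.1 hb).mp ((h a ha.1).mp ha)
    · intro hz
      obtain ⟨a, ha, rfl⟩ := G.surj z (Lh_trans (G.val b hb) hz)
      exact ⟨a, (h a ha).mpr ((G.mem a b ha hb).mpr hz), rfl⟩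

/-- a valid index names a new set -/
theorem Good.val_new {P : LPr} {β : Ordinal.{0}} (G : Good P β) (i : ℕ)
    (h : (HD P β).valI i) : S P β i ∉ Lh β := by
  intro hX
  obtain ⟨b, hb, e⟩ := G.surj _ hX
  exact h.2.1 b hb ((G.S_eq_old i b hb).mp e.symm)

/-- every new set has a valid index -/
theorem Good.exists_val {P : LPr} {β : Ordinal.{0}} (G : Good P β) (hN : NumOK P β)
    (X : ZFSet.{0}) (hX : X ∈ DefSet (Lh β)) (hX' : X ∉ Lh β) :
    ∃ i, (HD P β).valI i ∧ S P β i = X := by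
  classical
  have hex := G.idx_of_def hN X hX
  refine ⟨Nat.find hex, ⟨(Nat.find_spec hex).1, ?_, ?_⟩, (Nat.find_spec hex).2⟩
  · intro b hb h
    apply hX'
    rw [← (Nat.find_spec hex).2, (G.S_eq_old _ b hb).mpr h]
    exact G.val b hb
  · intro i' hi' hd h
    apply Nat.find_min hex hi'
    refine ⟨hd, ?_⟩
    rw [← (Nat.find_spec hex).2]
    exact ((G.S_eq_iff _ _).mpr h).symm

theorem Good.val_inj {P : LPr} {β : Ordinal.{0}} (G : Good P β) (i i' : ℕ)
    (h : (HD P β).valI i) (h' : (HD P β).valI i') (e : S P β i = S P β i') : i = i' := by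
  by_contra hne
  rcases Nat.lt_or_gt_of_ne hne with hl | hl
  · exact h'.2.2 i hl h.1 ((G.S_eq_iff _ _).mp e.symm)
  · exact h.2.2 i' hl h'.1 ((G.S_eq_iff _ _).mp e)

/-! ## The induction -/

theorem isN_mono {P : LPr} {α β : Ordinal.{0}} (h : α ≤ β) {a : Ordinal.{0} × ℕ}
    (ha : (HD P α).isN a) : (HD P β).isN a := ⟨lt_of_lt_of_le ha.1 h, ha.2⟩

theorem isN_res {P : LPr} {α β : Ordinal.{0}} {a : Ordinal.{0} × ℕ} (h : a.1 < α)
    (ha : (HD P β).isN a) : (HD P α).isN a := ⟨h, ha.2⟩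

theorem memN_res {P : LPr} {α β : Ordinal.{0}} {b a : Ordinal.{0} × ℕ}
    (hb : (HD P α).isN b) (ha : (HD P α).isN a) (hb' : (HD P β).isN b) (ha' : (HD P β).isN a) :
    (HD P α).memN b a ↔ (HD P β).memN b a := by
  constructor
  · rintro ⟨_, _, h1, h2⟩
    exact ⟨hb', ha', h1, h2⟩
  · rintro ⟨_, _, h1, h2⟩
    exact ⟨hb, ha, h1, h2⟩

theorem good (P : LPr) (β : Ordinal.{0}) : (∀ γ < β, NumOK P γ) → Good P β := by
  induction β using Ordinal.limitRecOn with
  | zero =>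
    intro _
    have hno : ∀ b, ¬ (HD P 0).isN b := fun b hb => absurd hb.1 (by
      show ¬ b.1 < 0
      simp)
    refine ⟨?_, fun b hb => absurd hb (hno b), fun b _ hb => absurd hb (hno b),
      fun b _ hb => absurd hb (hno b)⟩
    intro X hX
    rw [Lh_zero] at hX
    exact absurd hX (Set.notMem_empty _)
  | add_one β ih =>
    intro hN
    have G : Good P β := ih fun γ hγ => hN γ (hγ.trans (Order.lt_add_one_iff.mpr le_rfl))
    have hNβ : NumOK P β := hN β (Order.lt_add_one_iff.mpr le_rfl)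
    have hle : β ≤ β + 1 := (Order.lt_add_one_iff.mpr le_rfl).le
    -- the names of stage `β + 1`
    have hcases : ∀ b, (HD P (β + 1)).isN b →
        (HD P β).isN b ∨ (b.1 = β ∧ (HD P β).valI b.2) := by
      intro b hb
      rcases (Order.lt_add_one_iff.mp hb.1).eq_or_lt with e | l
      · right
        refine ⟨e, ?_⟩
        have := ((isN_iff P _ b).mp hb).2
        rwa [e] at this
      · exact Or.inl (isN_res l hb)
    have hnew : ∀ i, (HD P β).valI i → (HD P (β + 1)).isN (β, i) := fun i hi =>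
      (isN_iff P _ _).mpr ⟨Order.lt_add_one_iff.mpr le_rfl, hi⟩
    refine ⟨?_, ?_, ?_, ?_⟩
    · intro X hX
      by_cases hX' : X ∈ Lh β
      · obtain ⟨b, hb, e⟩ := G.surj X hX'
        exact ⟨b, isN_mono hle hb, e⟩
      · rw [Lh_succ] at hX
        obtain ⟨i, hi, e⟩ := G.exists_val hNβ X hX hX'
        exact ⟨(β, i), hnew i hi, e⟩
    · intro b hb
      rcases hcases b hb with h | ⟨h1, h2⟩
      · exact Lh_mono' hle (G.val b h)
      · rw [h1, Lh_succ]
        exact G.def_of_idx b.2 h2.1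
    · intro b b' hb hb' e
      rcases hcases b hb with h | ⟨h1, h2⟩ <;> rcases hcases b' hb' with h' | ⟨h1', h2'⟩
      · exact G.inj b b' h h' e
      · exfalso
        rw [h1'] at e
        apply G.val_new b'.2 h2'
        rw [← e]
        exact G.val b h
      · exfalso
        rw [h1] at e
        apply G.val_new b.2 h2
        rw [e]
        exact G.val b' h'
      · rw [h1, h1'] at e
        exact Prod.ext (h1.trans h1'.symm) (G.val_inj b.2 b'.2 h2 h2' e)
    · intro b a hb ha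
      rw [memN_iff P (β + 1) hN]
      rcases hcases a ha with h | ⟨h1, h2⟩
      · rcases hcases b hb with h' | ⟨h1', h2'⟩
        · rw [← G.mem b a h' h, memN_iff P β fun γ hγ => hN γ (hγ.trans_le hle)]
          exact ⟨fun h3 => ⟨h', h, h3.2.2⟩, fun h3 => ⟨hb, ha, h3.2.2⟩⟩
        · constructor
          · rintro ⟨_, _, hlt, _⟩
            rw [h1'] at hlt
            exact absurd (hlt.trans h.1) (lt_irrefl _)
          · intro hz
            exfalso
            rw [h1'] at hz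
            exact G.val_new b.2 h2' (Lh_trans (G.val a h) hz)
      · rcases hcases b hb with h' | ⟨h1', h2'⟩
        · rw [h1, ← G.inI_iff a.2 b h']
          exact ⟨fun h3 => h3.2.2.2, fun h3 => ⟨hb, ha, h'.1, h3⟩⟩
        · constructor
          · rintro ⟨_, _, hlt, _⟩
            rw [h1, h1'] at hlt
            exact absurd hlt (lt_irrefl _)
          · intro hz
            exfalso
            rw [h1', h1] at hz
            exact G.val_new b.2 h2' (DefSet_sub (G.def_of_idx a.2 h2.1) hz)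
  | limit l hl ih =>
    intro hN
    have G : ∀ β < l, Good P β := fun β hβ => ih β hβ fun γ hγ => hN γ (hγ.trans hβ)
    have hsucc : ∀ γ < l, γ + 1 < l := fun γ hγ => hl.add_one_lt hγ
    refine ⟨?_, ?_, ?_, ?_⟩
    · intro X hX
      rw [Lh_lim l hl] at hX
      obtain ⟨β, hβ, hX⟩ := hX
      obtain ⟨b, hb, e⟩ := (G β hβ).surj X hX
      exact ⟨b, isN_mono hβ.le hb, e⟩
    · intro b hb
      rw [Lh_lim l hl]
      exact ⟨b.1 + 1, hsucc b.1 hb.1, (G _ (hsucc b.1 hb.1)).val b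
        (isN_res (Order.lt_add_one_iff.mpr le_rfl) hb)⟩
    · intro b b' hb hb' e
      have h1 : max b.1 b'.1 < l := max_lt hb.1 hb'.1
      exact (G _ (hsucc _ h1)).inj b b'
        (isN_res (Order.lt_add_one_iff.mpr (le_max_left _ _)) hb)
        (isN_res (Order.lt_add_one_iff.mpr (le_max_right _ _)) hb') e
    · intro b a hb ha
      have h1 : max b.1 a.1 < l := max_lt hb.1 ha.1
      have hb' : (HD P (max b.1 a.1 + 1)).isN b :=
        isN_res (Order.lt_add_one_iff.mpr (le_max_left _ _)) hb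
      have ha' : (HD P (max b.1 a.1 + 1)).isN a :=
        isN_res (Order.lt_add_one_iff.mpr (le_max_right _ _)) ha
      rw [← (G _ (hsucc _ h1)).mem b a hb' ha']
      exact (memN_res hb' ha' hb ha).symm

/-! ## Natural numbers and reals -/

theorem Good.vn {P : LPr} {β : Ordinal.{0}} (G : Good P β) (n : ℕ) :
    ∀ a, (HD P β).isN a → ((HD P β).vnN n a ↔ S P a.1 a.2 = vN n) := by
  induction n with
  | zero =>
    intro a ha
    simp only [Hs.vnN, vN]
    constructor
    · rintro ⟨_, h⟩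
      rw [ZFSet.eq_empty]
      intro z hz
      obtain ⟨b, hb, rfl⟩ := G.surj z (Lh_trans (G.val a ha) hz)
      exact h b ((G.mem b a hb ha).mpr hz)
    · intro h
      refine ⟨ha, fun b hb => ?_⟩
      have h1 := (G.mem b a hb.1 ha).mp hb
      rw [h] at h1
      exact ZFSet.notMem_empty _ h1
  | succ n ih =>
    intro a ha
    simp only [Hs.vnN, vN]
    constructor
    · rintro ⟨_, b, hb, h⟩
      have hbN : (HD P β).isN b := by
        cases n with
        | zero => exact hb.1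
        | succ n => exact hb.1
      have hbv := (ih b hbN).mp hb
      apply ZFSet.ext
      intro z
      rw [ZFSet.mem_insert_iff]
      constructor
      · intro hz
        obtain ⟨c, hc, rfl⟩ := G.surj z (Lh_trans (G.val a ha) hz)
        rcases (h c hc).mp ((G.mem c a hc ha).mpr hz) with rfl | h1
        · exact Or.inl hbv
        · right
          rw [← hbv]
          exact (G.mem c b hc hbN).mp h1
      · rintro (h1 | h1)
        · rw [h1, ← hbv]
          exact (G.mem b a hbN ha).mp ((h b hbN).mpr (Or.inl rfl))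
        · rw [← hbv] at h1
          obtain ⟨c, hc, rfl⟩ := G.surj z (Lh_trans (G.val b hbN) h1)
          exact (G.mem c a hc ha).mp ((h c hc).mpr (Or.inr ((G.mem c b hc hbN).mpr h1)))
    · intro h
      have h1 : vN n ∈ S P a.1 a.2 := by
        rw [h, ZFSet.mem_insert_iff]
        exact Or.inl rfl
      obtain ⟨b, hb, e⟩ := G.surj _ (Lh_trans (G.val a ha) h1)
      refine ⟨ha, b, (ih b hb).mpr e, fun c hc => ?_⟩
      rw [G.mem c a hc ha, G.mem c b hc hb, h, ZFSet.mem_insert_iff, e]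
      constructor
      · rintro (h2 | h2)
        · left
          exact G.inj c b hc hb (h2.trans e.symm)
        · exact Or.inr h2
      · rintro (rfl | h2)
        · exact Or.inl e
        · exact Or.inr h2

/-- every real in `L_β` is listed -/
theorem real_listed (P : LPr) (β : Ordinal.{0}) (hN : ∀ γ < β, NumOK P γ) (x : Real2)
    (hx : RealIn x (Lh β)) : ∃ γ < β, ∃ j, ∀ n, x n = true ↔ rlL (labD P γ) j n := by
  obtain ⟨X, hX, hx⟩ := hx
  obtain ⟨⟨γ, i⟩, hb, rfl⟩ := (good P β hN).surj X hX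
  have hγ : γ < β := hb.1
  refine ⟨γ, hγ, i, fun n => ?_⟩
  have hv : (HD P γ).valI i := ((isN_iff P β (γ, i)).mp hb).2
  have G : Good P γ := good P γ fun δ hδ => hN δ (hδ.trans hγ)
  show _ ↔ Nat.pair 8 (encode (i, n)) ∈ labD P γ
  rw [lab8]
  have h1 : x n = true ↔ vN n ∈ S P γ i := by
    rw [hx]
    constructor
    · intro h
      exact ⟨n, h, rfl⟩
    · rintro ⟨m, hm, e⟩
      rw [vN_inj e]
      exact hm
  rw [h1]
  constructor
  · intro h
    refine ⟨hv, ?_⟩
    obtain ⟨a, ha, e⟩ := (S_mem P γ i (vN n)).mp h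
    exact ⟨a, ha, (G.vn n a ha.1).mpr e⟩
  · rintro ⟨_, a, ha, h2⟩
    rw [← (G.vn n a ha.1).mp h2]
    exact (S_mem P γ i _).mpr ⟨a, ha, rfl⟩

end Pool.Agent.Helper81.LL
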